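import Mathlib

set_option autoImplicit false

/-!
# Pairwise intersecting subfamilies of dense set systems: definitions
-/

namespace Pool.Agent.K1H44.DenseSys

/-- For sets `A 0, …, A (m-1)` of elements of the `n`-element set `Fin n`, a set `I` of indices is
`ε`-intersecting if `|A i ∩ A j| > ε n` for all distinct `i, j ∈ I`. -/
def Intersecting {n m : ℕ} (ε : ℝ) (A : Fin m → Finset (Fin n)) (I : Finset (Fin m)) : Prop :=
  ∀ i ∈ I, ∀ j ∈ I, i ≠ j → ε * n < ((A i ∩ A j).card : ℝ)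

/-- `f n m c ε` is the largest `k` such that every sequence `A 0, …, A (m-1)` of subsets of an
`n`-element set, each with more than `c n` elements, has an `ε`-intersecting set of `k` indices. -/
noncomputable def f (n m : ℕ) (c ε : ℝ) : ℕ :=
  sSup {k : ℕ | ∀ A : Fin m → Finset (Fin n), (∀ i, c * n < ((A i).card : ℝ)) →
    ∃ I : Finset (Fin m), I.card = k ∧ Intersecting ε A I}

theorem Intersecting.mono {n m : ℕ} {ε : ℝ} {A : Fin m → Finset (Fin n)} {I J : Finset (Fin m)}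
    (hJ : Intersecting ε A J) (h : I ⊆ J) : Intersecting ε A I :=
  fun i hi j hj hij => hJ i (h hi) j (h hj) hij

theorem bdd {n m : ℕ} {c ε : ℝ} (hn : 1 ≤ n) (hc : c < 1) :
    BddAbove {k : ℕ | ∀ A : Fin m → Finset (Fin n), (∀ i, c * n < ((A i).card : ℝ)) →
      ∃ I : Finset (Fin m), I.card = k ∧ Intersecting ε A I} := by
  refine ⟨m, ?_⟩
  intro k hk
  obtain ⟨I, hI, _⟩ := hk (fun _ => Finset.univ) (by
    intro i
    rw [Finset.card_univ, Fintype.card_fin]
    have : (1 : ℝ) ≤ n := by exact_mod_cast hn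
    nlinarith)
  rw [← hI]
  simpa using Finset.card_le_univ I

theorem f_mem {n m : ℕ} {c ε : ℝ} (hn : 1 ≤ n) (hc : c < 1) (A : Fin m → Finset (Fin n))
    (hA : ∀ i, c * n < ((A i).card : ℝ)) :
    ∃ I : Finset (Fin m), I.card = f n m c ε ∧ Intersecting ε A I := by
  have h := Nat.sSup_mem (s := {k : ℕ | ∀ A : Fin m → Finset (Fin n),
    (∀ i, c * n < ((A i).card : ℝ)) →
      ∃ I : Finset (Fin m), I.card = k ∧ Intersecting ε A I}) ⟨0, by
      intro A _
      exact ⟨∅, rfl, by intro i hi; simp at hi⟩⟩ (bdd hn hc)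
  exact h A hA

theorem le_f {n m k : ℕ} {c ε : ℝ} (hn : 1 ≤ n) (hc : c < 1)
    (h : ∀ A : Fin m → Finset (Fin n), (∀ i, c * n < ((A i).card : ℝ)) →
      ∃ I : Finset (Fin m), k ≤ I.card ∧ Intersecting ε A I) : k ≤ f n m c ε := by
  apply le_csSup (bdd hn hc)
  intro A hA
  obtain ⟨I, hI, hI2⟩ := h A hA
  obtain ⟨J, hJ, hJ2⟩ := Finset.exists_subset_card_eq hI
  exact ⟨J, hJ2, hI2.mono hJ⟩

theorem f_le {n m : ℕ} {c ε : ℝ} (hn : 1 ≤ n) (hc : c < 1) : f n m c ε ≤ m := by
  obtain ⟨I, hI, _⟩ := f_mem (ε := ε) hn hc (m := m) (fun _ => Finset.univ) (by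
    intro i
    rw [Finset.card_univ, Fintype.card_fin]
    have : (1 : ℝ) ≤ n := by exact_mod_cast hn
    nlinarith)
  rw [← hI]
  simpa using Finset.card_le_univ I

end Pool.Agent.K1H44.DenseSys
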