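import Mathlib
import Pool.Agent.K1H44.DenseSys.Defs
import Pool.Agent.K1H44.TInt

set_option autoImplicit false

/-!
# The upper bound: blown-up families of large subsets of a small set
-/

namespace Pool.Agent.K1H44.DenseSys

open Finset

/-- blow-up of a subset of `Fin d` -/
def blow {d q r n : ℕ} (e : (Fin d × Fin q) ⊕ Fin r ≃ Fin n) (y : Finset (Fin d)) :
    Finset (Fin n) :=
  ((y ×ˢ univ).disjSum univ).map e.toEmbedding

theorem card_blow {d q r n : ℕ} (e : (Fin d × Fin q) ⊕ Fin r ≃ Fin n) (y : Finset (Fin d)) :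
    (blow e y).card = y.card * q + r := by
  simp [blow, card_disjSum, card_product]

theorem blow_inter {d q r n : ℕ} (e : (Fin d × Fin q) ⊕ Fin r ≃ Fin n) (y z : Finset (Fin d)) :
    blow e y ∩ blow e z = blow e (y ∩ z) := by
  classical
  unfold blow
  rw [← map_inter]
  congr 1
  ext a
  rcases a with a | a
  · simp
  · simp

/-- more than half of the elements -/
def large (d : ℕ) : Finset (Finset (Fin d)) := univ.filter fun x => d < 2 * x.card

theorem two_pow_le_large (d : ℕ) (hd : Odd d) : 2 ^ (d - 1) ≤ (large d).card := by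
  classical
  have h1 : (univ : Finset (Finset (Fin d))) ⊆ large d ∪ (large d).image compl := by
    intro x _
    rw [mem_union]
    by_cases h : d < 2 * x.card
    · left
      simp [large, h]
    · right
      rw [mem_image]
      refine ⟨xᶜ, ?_, by simp⟩
      simp only [large, mem_filter, mem_univ, true_and]
      rw [card_compl, Fintype.card_fin]
      have : x.card ≤ d := by simpa using card_le_univ x
      obtain ⟨k, hk⟩ := hd
      omega
  have h2 := (card_le_card h1).trans ((card_union_le _ _).trans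
    (Nat.add_le_add_left Finset.card_image_le _))
  rw [card_univ, Fintype.card_finset, Fintype.card_fin] at h2
  have h3 : 2 ^ d = 2 * 2 ^ (d - 1) := by
    rw [← pow_succ']
    congr 1
    obtain ⟨k, hk⟩ := hd
    omega
  omega

/-- residues are nearly equidistributed -/
theorem card_fiber {m K : ℕ} (hK : 0 < K) (r : ℕ) :
    (univ.filter fun i : Fin m => (i : ℕ) % K = r).card ≤ m / K + 1 := by
  rw [← card_range (m / K + 1)]
  apply card_le_card_of_injOn (fun i : Fin m => (i : ℕ) / K)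
  · intro i _
    simp only [coe_range, Set.mem_Iio]
    have : (i : ℕ) / K ≤ m / K := Nat.div_le_div_right i.2.le
    omega
  · intro i hi j hj hij
    simp only [coe_filter, mem_univ, true_and, Set.mem_setOf_eq] at hi hj
    simp only at hij
    ext
    rw [← Nat.div_add_mod (i : ℕ) K, ← Nat.div_add_mod (j : ℕ) K, hij, hi, hj]

theorem upper_core {n m d : ℕ} {c ε : ℝ} (hε : 0 < ε) (hε1 : ε ≤ 1 / 2)
    (hc : c ≤ 1 / 2) (hd : Odd d) (hdm : 2 ^ (d - 1) ≤ m) (hdn : (d : ℝ) ≤ ε * n / 4) :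
    (f n m c ε : ℝ) ≤ 4 * m * Real.exp (-(ε ^ 2 / 8 * d)) := by
  classical
  have hd1 : 1 ≤ d := hd.pos
  have hd0 : (0 : ℝ) < d := by exact_mod_cast hd1
  have hn1 : (d : ℝ) ≤ n := by
    have : (0 : ℝ) ≤ n := Nat.cast_nonneg _
    nlinarith
  have hdn' : d ≤ n := by exact_mod_cast hn1
  have hn : 1 ≤ n := hd1.trans hdn'
  obtain ⟨q, hq⟩ : ∃ q, q = n / d := ⟨_, rfl⟩
  obtain ⟨r, hr⟩ : ∃ r, r = n % d := ⟨_, rfl⟩
  have hnq : d * q + r = n := by rw [hq, hr]; exact Nat.div_add_mod n d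
  have hq1 : 1 ≤ q := by rw [hq]; exact (Nat.one_le_div_iff hd1).mpr hdn'
  have hrd : r < d := by rw [hr]; exact Nat.mod_lt _ hd1
  obtain ⟨e⟩ : Nonempty ((Fin d × Fin q) ⊕ Fin r ≃ Fin n) := by
    apply Fintype.card_eq.mp
    simp [hnq]
  obtain ⟨K, hK⟩ : ∃ K, K = 2 ^ (d - 1) := ⟨_, rfl⟩
  have hK0 : 0 < K := by rw [hK]; positivity
  -- injection of `Fin K` into the large sets
  obtain ⟨g⟩ : Nonempty (Fin K ↪ {x // x ∈ large d}) := by
    apply Function.Embedding.nonempty_of_card_le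
    rw [Fintype.card_fin, Fintype.card_coe, hK]
    exact two_pow_le_large d hd
  let x : Fin m → Finset (Fin d) := fun i => (g ⟨(i : ℕ) % K, Nat.mod_lt _ hK0⟩).1
  have hx : ∀ i, d < 2 * (x i).card := by
    intro i
    have := (g ⟨(i : ℕ) % K, Nat.mod_lt _ hK0⟩).2
    simp only [large, mem_filter, mem_univ, true_and] at this
    exact this
  have hqn : (d : ℝ) * q + r = n := by exact_mod_cast hnq
  have hrd' : (r : ℝ) < d := by exact_mod_cast hrd
  have hq1' : (1 : ℝ) ≤ q := by exact_mod_cast hq1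
  have hr0 : (0 : ℝ) ≤ r := Nat.cast_nonneg _
  obtain ⟨I, hI1, hI2⟩ := f_mem (ε := ε) hn (by linarith : c < 1) (fun i => blow e (x i)) (by
    intro i
    rw [card_blow]
    have h1 : (d : ℝ) + 1 ≤ 2 * (x i).card := by exact_mod_cast hx i
    push_cast
    have h2 : ((d : ℝ) + 1) * q ≤ 2 * (x i).card * q := mul_le_mul_of_nonneg_right h1 (by linarith)
    have h3 : (0 : ℝ) ≤ n := Nat.cast_nonneg _
    nlinarith)
  rw [← hI1]
  -- the traces
  have hF : ∀ y ∈ I.image x, ∀ z ∈ I.image x, 3 * ε / 4 * d ≤ ((y ∩ z).card : ℝ) := by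
    intro y hy z hz
    rw [mem_image] at hy hz
    obtain ⟨i, hi, rfl⟩ := hy
    obtain ⟨j, hj, rfl⟩ := hz
    by_cases hij : x i = x j
    · rw [← hij, inter_self]
      have h1 : (d : ℝ) + 1 ≤ 2 * (x i).card := by exact_mod_cast hx i
      nlinarith
    · have hne : i ≠ j := fun h => hij (by rw [h])
      have h1 := hI2 i hi j hj hne
      rw [blow_inter, card_blow] at h1
      push_cast at h1
      -- `q |x i ∩ x j| > 3 ε n / 4 ≥ 3 ε d q / 4`
      have h2 : 3 * ε / 4 * n ≤ ((x i ∩ x j).card : ℝ) * q := by linarith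
      have h3 : 3 * ε / 4 * (d * q) ≤ 3 * ε / 4 * n := by
        apply mul_le_mul_of_nonneg_left _ (by positivity)
        linarith
      have h4 : 3 * ε / 4 * d * q ≤ ((x i ∩ x j).card : ℝ) * q := by linarith
      exact le_of_mul_le_mul_right h4 (by linarith)
  have h1 := TInt.card_le (τ := 3 * ε / 4) (by positivity) (by linarith) (I.image x) hF
  have h2 : I.card ≤ (m / K + 1) * (I.image x).card := by
    apply card_le_mul_card_image
    intro y hy
    rw [mem_image] at hy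
    obtain ⟨i, hi, rfl⟩ := hy
    refine le_trans (card_le_card ?_) (card_fiber hK0 ((i : ℕ) % K))
    intro j hj
    simp only [mem_filter, mem_univ, true_and] at hj ⊢
    have h3 := g.injective (Subtype.ext hj.2)
    exact congrArg Fin.val h3
  have h3 : ((m / K + 1 : ℕ) : ℝ) ≤ 2 * m / 2 ^ (d - 1) := by
    have h4 : ((m / K : ℕ) : ℝ) ≤ m / K := Nat.cast_div_le
    have h5 : (1 : ℝ) ≤ m / K := by
      rw [le_div_iff₀ (by exact_mod_cast hK0), one_mul]
      rw [hK]; exact_mod_cast hdm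
    have h6 : (K : ℝ) = 2 ^ (d - 1) := by rw [hK]; push_cast; ring
    push_cast
    rw [← h6]
    have h7 : (2 : ℝ) * m / K = m / K + m / K := by ring
    rw [h7]
    linarith
  calc (I.card : ℝ) ≤ ((m / K + 1 : ℕ) : ℝ) * ((I.image x).card : ℝ) := by exact_mod_cast h2
    _ ≤ (2 * m / 2 ^ (d - 1)) * (2 ^ d * Real.exp (-(2 / 9 * (3 * ε / 4) ^ 2 * d))) :=
        mul_le_mul h3 h1 (Nat.cast_nonneg _) (by positivity)
    _ = 4 * m * Real.exp (-(ε ^ 2 / 8 * d)) := by
      have h8 : (2 : ℝ) ^ d = 2 * 2 ^ (d - 1) := by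
        rw [← pow_succ']
        congr 1
        omega
      rw [h8]
      have h9 : -(2 / 9 * (3 * ε / 4) ^ 2 * (d : ℝ)) = -(ε ^ 2 / 8 * d) := by ring
      rw [h9]
      field_simp
      ring

theorem upper {n m : ℕ} {c ε : ℝ} (hn : 1 ≤ n) (hm : 1 ≤ m) (hε : 0 < ε) (hε1 : ε ≤ 1 / 2)
    (hc : c ≤ 1 / 2) :
    (f n m c ε : ℝ) ≤
      5 * m * Real.exp (-(ε ^ 2 / 8 * min (Real.logb 2 m) (ε * n / 4))) := by
  have hm0 : (0 : ℝ) < m := by exact_mod_cast hm
  have hlog : Real.logb 2 m ≤ Nat.log 2 m + 1 := by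
    have h1 : m < 2 ^ (Nat.log 2 m + 1) := Nat.lt_pow_succ_log_self (by norm_num) m
    rw [Real.logb_le_iff_le_rpow (by norm_num) hm0]
    have h2 : (m : ℝ) ≤ 2 ^ (Nat.log 2 m + 1) := by exact_mod_cast h1.le
    rw [← Nat.cast_add_one, Real.rpow_natCast]
    exact h2
  have hlog0 : 0 ≤ Real.logb 2 m := Real.logb_nonneg (by norm_num) (by exact_mod_cast hm)
  obtain ⟨t, ht⟩ : ∃ t : ℕ, t = min (Nat.log 2 m + 1) ⌊ε * n / 4⌋₊ := ⟨_, rfl⟩
  obtain ⟨L, hL⟩ : ∃ L : ℝ, L = min (Real.logb 2 m) (ε * n / 4) := ⟨_, rfl⟩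
  rw [← hL]
  have hfl : ε * n / 4 < ⌊ε * n / 4⌋₊ + 1 := Nat.lt_floor_add_one _
  have hL1 : L ≤ t + 1 := by
    rw [hL, ht]
    rcases le_total (Nat.log 2 m + 1) ⌊ε * n / 4⌋₊ with h | h
    · rw [min_eq_left h]
      refine (min_le_left _ _).trans ?_
      push_cast
      linarith
    · rw [min_eq_right h]
      exact (min_le_right _ _).trans hfl.le
  have hε2 : ε ^ 2 ≤ 1 / 4 := by nlinarith
  have hε20 : 0 < ε ^ 2 := by positivity
  rcases Nat.eq_zero_or_pos t with h0 | h0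
  · -- trivial bound
    have h1 : L ≤ 1 := by rw [h0] at hL1; simpa using hL1
    have h2 : (f n m c ε : ℝ) ≤ m := by exact_mod_cast f_le (ε := ε) hn (by linarith : c < 1)
    have h3 : -(1 / 32 : ℝ) ≤ -(ε ^ 2 / 8 * L) := by nlinarith
    have h4 : (31 / 32 : ℝ) ≤ Real.exp (-(ε ^ 2 / 8 * L)) := by
      have := Real.add_one_le_exp (-(ε ^ 2 / 8 * L))
      linarith
    nlinarith
  · -- the odd dimension
    obtain ⟨d, hd, hdt, hdt'⟩ : ∃ d, Odd d ∧ d ≤ t ∧ t ≤ d + 1 := by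
      rcases Nat.even_or_odd t with h | h
      · refine ⟨t - 1, ?_, by omega, by omega⟩
        exact Nat.Even.sub_odd h0 h odd_one
      · exact ⟨t, h, le_rfl, by omega⟩
    have hdm : 2 ^ (d - 1) ≤ m := by
      have h1 : t ≤ Nat.log 2 m + 1 := by rw [ht]; exact min_le_left _ _
      calc 2 ^ (d - 1) ≤ 2 ^ (Nat.log 2 m) := Nat.pow_le_pow_right (by norm_num) (by omega)
        _ ≤ m := Nat.pow_log_le_self 2 (by omega)
    have hdn : (d : ℝ) ≤ ε * n / 4 := by
      have h1 : t ≤ ⌊ε * n / 4⌋₊ := by rw [ht]; exact min_le_right _ _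
      have h2 : ((⌊ε * n / 4⌋₊ : ℕ) : ℝ) ≤ ε * n / 4 := Nat.floor_le (by positivity)
      have h3 : (d : ℝ) ≤ (⌊ε * n / 4⌋₊ : ℕ) := by exact_mod_cast hdt.trans h1
      linarith
    have h1 := upper_core (c := c) hε hε1 hc hd hdm hdn
    have h2 : L - 2 ≤ d := by
      have : (t : ℝ) ≤ d + 1 := by exact_mod_cast hdt'
      linarith
    have h3 : -(ε ^ 2 / 8 * (d : ℝ)) ≤ 1 / 16 + -(ε ^ 2 / 8 * L) := by nlinarith
    have h4 : Real.exp (-(ε ^ 2 / 8 * (d : ℝ))) ≤ 5 / 4 * Real.exp (-(ε ^ 2 / 8 * L)) := by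
      refine (Real.exp_le_exp.mpr h3).trans ?_
      rw [Real.exp_add]
      apply mul_le_mul_of_nonneg_right _ (Real.exp_pos _).le
      have h5 : Real.exp (1 / 16) ≤ 1 / (1 - 1 / 16) := Real.exp_bound_div_one_sub_of_interval
        (by norm_num) (by norm_num)
      refine h5.trans (by norm_num)
    calc (f n m c ε : ℝ) ≤ 4 * m * Real.exp (-(ε ^ 2 / 8 * d)) := h1
      _ ≤ 4 * m * (5 / 4 * Real.exp (-(ε ^ 2 / 8 * L))) := by gcongr
      _ = _ := by ring

end Pool.Agent.K1H44.DenseSys
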