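import Mathlib
import Pool.Agent.K1H44.DenseSys.Upper

set_option autoImplicit false

/-!
# Upper bound for `c < 1/2`: threshold sets

A word `x ∈ {0,1}^k` defines the set of all sequences of `j` samples `(i, b)` for which more than
`j/2 + u` samples agree with `x`, that is `x_i = b`. For `u` of order `√j` these sets have density more
than `c`. If `x` and `y` agree in few coordinates only, a sequence in both sets is a large deviation.
-/

namespace Pool.Agent.K1H44.DenseSys

open Finset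

/-- the samples that agree with `x` -/
def agr {k j : ℕ} (x : Fin k → Bool) (ω : Fin j → Fin k × Bool) : Finset (Fin j) :=
  univ.filter fun l => x (ω l).1 = (ω l).2

/-- the threshold sets -/
def thr {k j : ℕ} (T : ℕ) (x : Fin k → Bool) : Finset (Fin j → Fin k × Bool) :=
  univ.filter fun ω => T ≤ (agr x ω).card

theorem card_thr {k j : ℕ} (T : ℕ) (x : Fin k → Bool) :
    (thr (j := j) T x).card = k ^ j * (univ.filter fun s : Finset (Fin j) => T ≤ s.card).card := by
  classical
  have h1 : (thr (j := j) T x).card =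
      ((univ : Finset (Fin j → Fin k)) ×ˢ (univ.filter fun s : Finset (Fin j) => T ≤ s.card)).card := by
    refine card_nbij' (fun ω => (fun l => (ω l).1, agr x ω))
      (fun p => fun l => (p.1 l, if l ∈ p.2 then x (p.1 l) else !x (p.1 l))) ?_ ?_ ?_ ?_
    · intro ω hω
      simp only [thr, coe_filter, mem_univ, true_and, Set.mem_setOf_eq] at hω
      simp [hω]
    · intro p hp
      simp only [coe_product, coe_univ, coe_filter, mem_univ, true_and, Set.mem_prod, Set.mem_univ,
        Set.mem_setOf_eq] at hp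
      simp only [thr, coe_filter, mem_univ, true_and, Set.mem_setOf_eq]
      refine hp.trans (card_le_card fun l hl => ?_)
      simp [agr, hl]
    · intro ω _
      funext l
      ext
      · rfl
      · simp only [agr, mem_filter, mem_univ, true_and]
        by_cases h : x (ω l).1 = (ω l).2
        · simp [h]
        · simp only [h, if_false]
          cases h1 : x (ω l).1 <;> cases h2 : (ω l).2 <;> simp_all
    · intro p _
      refine Prod.ext rfl ?_
      ext l
      simp only [agr, mem_filter, mem_univ, true_and]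
      by_cases h : l ∈ p.2
      · simp [h]
      · simp [h]
  rw [h1, card_product, card_univ, Fintype.card_fun, Fintype.card_fin, Fintype.card_fin]

theorem central_sq (a : ℕ) : (Nat.centralBinom a) ^ 2 * (2 * a + 1) ≤ 16 ^ a := by
  induction a with
  | zero => simp
  | succ a ih =>
    have h := Nat.succ_mul_centralBinom_succ a
    have h2 : (a + 1) ^ 2 * ((Nat.centralBinom (a + 1)) ^ 2 * (2 * (a + 1) + 1)) ≤
        (a + 1) ^ 2 * 16 ^ (a + 1) := by
      have e1 : (a + 1) ^ 2 * ((Nat.centralBinom (a + 1)) ^ 2 * (2 * (a + 1) + 1)) =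
          4 * ((Nat.centralBinom a) ^ 2 * (2 * a + 1)) * ((2 * a + 1) * (2 * a + 3)) := by
        have : (a + 1) ^ 2 * ((Nat.centralBinom (a + 1)) ^ 2 * (2 * (a + 1) + 1)) =
            ((a + 1) * Nat.centralBinom (a + 1)) ^ 2 * (2 * a + 3) := by ring
        rw [this, h]
        ring
      rw [e1]
      have e2 : (2 * a + 1) * (2 * a + 3) ≤ 4 * (a + 1) ^ 2 := by nlinarith
      calc 4 * ((Nat.centralBinom a) ^ 2 * (2 * a + 1)) * ((2 * a + 1) * (2 * a + 3)) ≤
          4 * 16 ^ a * (4 * (a + 1) ^ 2) := by gcongr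
        _ = (a + 1) ^ 2 * 16 ^ (a + 1) := by ring
    exact Nat.le_of_mul_le_mul_left h2 (by positivity)

/-- subsets of a `2a`-element set with at least `a + u` elements -/
theorem card_large (a u : ℕ) (hu : 1 ≤ u) :
    2 ^ (2 * a) ≤ 2 * (univ.filter fun s : Finset (Fin (2 * a)) => a + u ≤ s.card).card +
      (2 * u - 1) * Nat.centralBinom a := by
  classical
  have h1 : (univ : Finset (Finset (Fin (2 * a)))) ⊆
      (univ.filter fun s : Finset (Fin (2 * a)) => a + u ≤ s.card) ∪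
      (univ.filter fun s : Finset (Fin (2 * a)) => a + u ≤ s.card).image compl ∪
      (Finset.Ioo (a - u : ℤ) (a + u)).biUnion fun t => powersetCard t.toNat univ := by
    intro s _
    rw [mem_union, mem_union]
    have hs : s.card ≤ 2 * a := by simpa using card_le_univ s
    by_cases h : a + u ≤ s.card
    · left; left; simp [h]
    · by_cases h2 : s.card + u ≤ a
      · left; right
        rw [mem_image]
        refine ⟨sᶜ, ?_, by simp⟩
        simp only [mem_filter, mem_univ, true_and]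
        rw [card_compl, Fintype.card_fin]
        omega
      · right
        rw [mem_biUnion]
        refine ⟨(s.card : ℤ), ?_, ?_⟩
        · rw [Finset.mem_Ioo]
          constructor <;> omega
        · rw [mem_powersetCard]
          exact ⟨subset_univ _, by simp⟩
  have h2 := card_le_card h1
  rw [card_univ, Fintype.card_finset, Fintype.card_fin] at h2
  have h3 := card_union_le ((univ.filter fun s : Finset (Fin (2 * a)) => a + u ≤ s.card) ∪
      (univ.filter fun s : Finset (Fin (2 * a)) => a + u ≤ s.card).image compl)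
      ((Finset.Ioo (a - u : ℤ) (a + u)).biUnion fun t => powersetCard t.toNat univ)
  have h4 := card_union_le (univ.filter fun s : Finset (Fin (2 * a)) => a + u ≤ s.card)
      ((univ.filter fun s : Finset (Fin (2 * a)) => a + u ≤ s.card).image compl)
  have h5 : ((univ.filter fun s : Finset (Fin (2 * a)) => a + u ≤ s.card).image compl).card ≤
      (univ.filter fun s : Finset (Fin (2 * a)) => a + u ≤ s.card).card := Finset.card_image_le
  have h6 : ((Finset.Ioo (a - u : ℤ) (a + u)).biUnion fun t =>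
      powersetCard t.toNat (univ : Finset (Fin (2 * a)))).card ≤
      (Finset.Ioo (a - u : ℤ) (a + u)).card * Nat.centralBinom a := by
    apply card_biUnion_le_card_mul
    intro t _
    rw [card_powersetCard, card_univ, Fintype.card_fin]
    exact Nat.choose_le_centralBinom _ _
  rw [Int.card_Ioo] at h6
  have h7 : ((a + u : ℤ) - (a - u) - 1).toNat = 2 * u - 1 := by omega
  rw [h7] at h6
  omega

theorem card_thr_ge {k a u : ℕ} {η : ℝ} (hu : 1 ≤ u) (hη : 0 < η) (ha : 8 * (u : ℝ) ^ 2 / η ^ 2 ≤ a)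
    (x : Fin k → Bool) :
    (1 / 2 - η / 4) * (2 * k : ℝ) ^ (2 * a) ≤ ((thr (j := 2 * a) (a + u) x).card : ℝ) := by
  rw [card_thr]
  have h1 := card_large a u hu
  have h2 := central_sq a
  obtain ⟨C, hC⟩ : ∃ C : ℝ, C = (Nat.centralBinom a : ℝ) := ⟨_, rfl⟩
  obtain ⟨P, hP⟩ : ∃ P : ℝ, P = ((univ.filter fun s : Finset (Fin (2 * a)) => a + u ≤ s.card).card : ℝ) :=
    ⟨_, rfl⟩
  have hu' : (1 : ℝ) ≤ u := by exact_mod_cast hu
  have h1' : (2 : ℝ) ^ (2 * a) ≤ 2 * P + (2 * u - 1) * C := by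
    rw [hP, hC]
    have : ((2 * u - 1 : ℕ) : ℝ) = 2 * (u : ℝ) - 1 := by
      rw [Nat.cast_sub (by omega)]; push_cast; ring
    rw [← this]
    exact_mod_cast h1
  have h2' : C ^ 2 * (2 * a + 1) ≤ (2 ^ (2 * a)) ^ 2 := by
    rw [hC]
    have e : ((2 : ℝ) ^ (2 * a)) ^ 2 = 16 ^ a := by
      rw [← pow_mul, mul_comm, ← mul_assoc, pow_mul]; norm_num
    rw [e]
    exact_mod_cast h2
  have hC0 : 0 ≤ C := by rw [hC]; exact Nat.cast_nonneg _
  -- `(2u - 1) C ≤ η/2 2^(2a)`
  have h3 : 16 * (u : ℝ) ^ 2 ≤ η ^ 2 * (2 * a + 1) := by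
    rw [div_le_iff₀ (by positivity)] at ha
    nlinarith
  have h4 : (2 * u * C) ≤ η / 2 * 2 ^ (2 * a) := by
    apply abs_le_of_sq_le_sq' _ (by positivity) |>.2
    calc (2 * u * C) ^ 2 = (16 * (u : ℝ) ^ 2) * C ^ 2 / 4 := by ring
      _ ≤ (η ^ 2 * (2 * a + 1)) * C ^ 2 / 4 := by gcongr
      _ = η ^ 2 / 4 * (C ^ 2 * (2 * a + 1)) := by ring
      _ ≤ η ^ 2 / 4 * (2 ^ (2 * a)) ^ 2 := by gcongr
      _ = _ := by ring
  have h5 : (1 / 2 - η / 4) * (2 : ℝ) ^ (2 * a) ≤ P := by nlinarith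
  push_cast
  rw [← hP, mul_pow]
  have h6 : (0 : ℝ) ≤ (k : ℝ) ^ (2 * a) := by positivity
  calc (1 / 2 - η / 4) * ((2 : ℝ) ^ (2 * a) * (k : ℝ) ^ (2 * a)) =
      ((1 / 2 - η / 4) * (2 : ℝ) ^ (2 * a)) * (k : ℝ) ^ (2 * a) := by ring
    _ ≤ P * (k : ℝ) ^ (2 * a) := mul_le_mul_of_nonneg_right h5 h6
    _ = _ := by ring

/-- the number of coordinates in which two words agree -/
def agree {k : ℕ} (x y : Fin k → Bool) : ℕ := (univ.filter fun i => x i = y i).card

theorem card_thr_inter {k a u : ℕ} {l : ℝ} (hl : 0 ≤ l) (x y : Fin k → Bool) :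
    ((thr (j := 2 * a) (a + u) x ∩ thr (j := 2 * a) (a + u) y).card : ℝ) ≤
      Real.exp (-(2 * l * u)) * (2 * k + 2 * agree x y * (Real.cosh l - 1)) ^ (2 * a) := by
  classical
  set g : Fin k × Bool → ℝ := fun p =>
    Real.exp (l * ((if x p.1 = p.2 then 1 else 0) + (if y p.1 = p.2 then 1 else 0) - 1)) with hg
  have hsum : ∑ p, g p = 2 * k + 2 * agree x y * (Real.cosh l - 1) := by
    rw [Fintype.sum_prod_type]
    have h1 : ∀ i : Fin k, ∑ b, g (i, b) = 2 + (if x i = y i then 2 * (Real.cosh l - 1) else 0) := by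
      intro i
      rw [Fintype.sum_bool]
      simp only [hg]
      rw [Real.cosh_eq]
      cases hx : x i <;> cases hy : y i <;> simp <;> ring_nf
    simp_rw [h1]
    rw [sum_add_distrib, sum_const, card_univ, Fintype.card_fin, nsmul_eq_mul, ← sum_filter, sum_const,
      nsmul_eq_mul]
    unfold agree
    ring
  have hpow : ∑ ω : Fin (2 * a) → Fin k × Bool, ∏ t, g (ω t) =
      (2 * k + 2 * agree x y * (Real.cosh l - 1)) ^ (2 * a) := by
    rw [← hsum, Fintype.sum_pow]
  have hterm : ∀ ω ∈ thr (j := 2 * a) (a + u) x ∩ thr (j := 2 * a) (a + u) y,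
      (1 : ℝ) ≤ Real.exp (-(2 * l * u)) * ∏ t, g (ω t) := by
    intro ω hω
    rw [mem_inter] at hω
    simp only [thr, mem_filter, mem_univ, true_and] at hω
    have h1 : ∏ t, g (ω t) = Real.exp (l * ((agr x ω).card + (agr y ω).card - (2 * a : ℕ))) := by
      simp only [hg]
      rw [← Real.exp_sum, ← mul_sum]
      congr 2
      rw [sum_sub_distrib, sum_add_distrib, sum_boole, sum_boole, sum_const, card_univ,
        Fintype.card_fin, nsmul_eq_mul, mul_one]
      rfl
    rw [h1, ← Real.exp_add]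
    apply Real.one_le_exp
    have h2 : ((a + u : ℕ) : ℝ) ≤ (agr x ω).card := by exact_mod_cast hω.1
    have h3 : ((a + u : ℕ) : ℝ) ≤ (agr y ω).card := by exact_mod_cast hω.2
    push_cast at h2 h3 ⊢
    nlinarith
  have hnn : ∀ ω : Fin (2 * a) → Fin k × Bool, 0 ≤ Real.exp (-(2 * l * u)) * ∏ t, g (ω t) := by
    intro ω
    apply mul_nonneg (Real.exp_pos _).le
    exact prod_nonneg fun t _ => (Real.exp_pos _).le
  calc ((thr (j := 2 * a) (a + u) x ∩ thr (j := 2 * a) (a + u) y).card : ℝ) =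
      ∑ _ω ∈ thr (j := 2 * a) (a + u) x ∩ thr (j := 2 * a) (a + u) y, (1 : ℝ) := by simp
    _ ≤ ∑ ω ∈ thr (j := 2 * a) (a + u) x ∩ thr (j := 2 * a) (a + u) y,
        Real.exp (-(2 * l * u)) * ∏ t, g (ω t) := sum_le_sum hterm
    _ ≤ ∑ ω : Fin (2 * a) → Fin k × Bool, Real.exp (-(2 * l * u)) * ∏ t, g (ω t) :=
        sum_le_sum_of_subset_of_nonneg (subset_univ _) fun ω _ _ => hnn ω
    _ = _ := by rw [← mul_sum, hpow]

theorem cosh_le {l : ℝ} (h0 : 0 ≤ l) (h1 : l ≤ 1) : Real.cosh l - 1 ≤ l ^ 2 := by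
  have h2 := Real.cosh_le_exp_half_sq l
  have h3 : Real.exp (l ^ 2 / 2) ≤ 1 / (1 - l ^ 2 / 2) := Real.exp_bound_div_one_sub_of_interval
    (by positivity) (by nlinarith)
  have h4 : 1 / (1 - l ^ 2 / 2) ≤ 1 + l ^ 2 := by
    rw [div_le_iff₀ (by nlinarith)]
    nlinarith [sq_nonneg l, mul_nonneg (sq_nonneg l) (sq_nonneg l), mul_le_one₀ h1 h0 h1]
  linarith

/-- words that agree in at most `θ k` coordinates have almost disjoint threshold sets -/
theorem card_thr_inter_le {k a u : ℕ} {θ E : ℝ} (hk : 1 ≤ k) (hθ : 0 < θ) (ha0 : 1 ≤ a)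
    (ha1 : (u : ℝ) ≤ 2 * a * θ) (ha2 : 2 * a * θ * E ≤ (u : ℝ) ^ 2)
    (x y : Fin k → Bool) (hxy : (agree x y : ℝ) ≤ θ * k) :
    ((thr (j := 2 * a) (a + u) x ∩ thr (j := 2 * a) (a + u) y).card : ℝ) ≤
      Real.exp (-E) * (2 * k : ℝ) ^ (2 * a) := by
  have hk0 : (0 : ℝ) < k := by exact_mod_cast hk
  have ha0' : (0 : ℝ) < a := by exact_mod_cast ha0
  obtain ⟨l, hl⟩ : ∃ l : ℝ, l = u / (2 * a * θ) := ⟨_, rfl⟩
  have hd : 0 < 2 * a * θ := by positivity
  have hl0 : 0 ≤ l := by rw [hl]; positivity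
  have hl1 : l ≤ 1 := by rw [hl, div_le_one hd]; exact ha1
  refine (card_thr_inter hl0 x y).trans ?_
  have h1 : (2 * k + 2 * agree x y * (Real.cosh l - 1) : ℝ) ≤ (2 * k) * Real.exp (θ * l ^ 2) := by
    have h2 : θ * l ^ 2 + 1 ≤ Real.exp (θ * l ^ 2) := Real.add_one_le_exp _
    have h3 : (agree x y : ℝ) * (Real.cosh l - 1) ≤ θ * k * l ^ 2 :=
      mul_le_mul hxy (cosh_le hl0 hl1) (by linarith [Real.one_le_cosh l]) (by positivity)
    have h4 : (2 * k : ℝ) * (θ * l ^ 2 + 1) ≤ (2 * k) * Real.exp (θ * l ^ 2) :=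
      mul_le_mul_of_nonneg_left h2 (by positivity)
    nlinarith
  have h0 : (0 : ℝ) ≤ 2 * k + 2 * agree x y * (Real.cosh l - 1) := by
    have : 0 ≤ Real.cosh l - 1 := by linarith [Real.one_le_cosh l]
    positivity
  have h5 : (2 * k + 2 * agree x y * (Real.cosh l - 1) : ℝ) ^ (2 * a) ≤
      (2 * k : ℝ) ^ (2 * a) * Real.exp (2 * a * θ * l ^ 2) := by
    refine (pow_le_pow_left₀ h0 h1 _).trans_eq ?_
    rw [mul_pow, ← Real.exp_nat_mul]
    congr 2
    push_cast
    ring
  calc Real.exp (-(2 * l * u)) * (2 * k + 2 * agree x y * (Real.cosh l - 1)) ^ (2 * a) ≤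
      Real.exp (-(2 * l * u)) * ((2 * k : ℝ) ^ (2 * a) * Real.exp (2 * a * θ * l ^ 2)) :=
        mul_le_mul_of_nonneg_left h5 (Real.exp_pos _).le
    _ = Real.exp (-(2 * l * u) + 2 * a * θ * l ^ 2) * (2 * k : ℝ) ^ (2 * a) := by
        rw [Real.exp_add]; ring
    _ ≤ Real.exp (-E) * (2 * k : ℝ) ^ (2 * a) := by
        apply mul_le_mul_of_nonneg_right _ (by positivity)
        apply Real.exp_le_exp.mpr
        have h6 : -(2 * l * u) + 2 * a * θ * l ^ 2 = -((u : ℝ) ^ 2 / (2 * a * θ)) := by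
          rw [hl]; field_simp; ring
        rw [h6, neg_le_neg_iff, le_div_iff₀ hd]
        linarith

end Pool.Agent.K1H44.DenseSys
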