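import Mathlib
import Pool.Agent.K1H44.CubeIso
import Pool.Agent.K1H44.DenseSys.Thr

set_option autoImplicit false

/-!
# Upper bound for `c < 1/2`
-/

namespace Pool.Agent.K1H44.DenseSys

open Finset Pool.Agent.K1H44.CubeIso

/-- A family of words of length `d` any two of which agree in at least `τ d` coordinates has at most
`2^d exp (- 2 τ² d / 9)` members. -/
theorem card_agree_le {d : ℕ} {τ : ℝ} (hτ0 : 0 ≤ τ) (hτ1 : τ ≤ 3 / 8) (F : Finset (Fin d → Bool))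
    (hF : ∀ x ∈ F, ∀ y ∈ F, τ * d ≤ (agree x y : ℝ)) :
    (F.card : ℝ) ≤ 2 ^ d * Real.exp (-(2 / 9 * τ ^ 2 * d)) := by
  classical
  obtain ⟨s, hs⟩ : ∃ s : ℕ, s = ⌈τ * d⌉₊ := ⟨_, rfl⟩
  have hs1 : τ * d ≤ s := by rw [hs]; exact Nat.le_ceil _
  let e2 : (Fin d → Bool) → (Fin d → Bool) := fun x i => !x i
  have i2 : Function.Injective e2 := by
    intro x y hxy
    ext i
    have := congrFun hxy i
    simpa [e2] using this
  have hmain := card_mul_card_le (1 + τ) (by linarith) d s F (F.image e2) (by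
    intro x hx z hz
    rw [mem_image] at hz
    obtain ⟨z, hz, rfl⟩ := hz
    have h1 := hF x hx z hz
    have h2 : s ≤ agree x z := by
      rw [hs]
      exact Nat.ceil_le.mpr h1
    refine h2.trans ?_
    unfold hammingDist agree
    apply card_le_card
    intro i hi
    simp only [mem_filter, mem_univ, true_and] at hi
    simp [e2, hi])
  rw [card_image_of_injective _ i2] at hmain
  -- numerics
  have hq : (2 + (1 + τ) + 1 / (1 + τ)) ≤ 4 * Real.exp (τ ^ 2 / 4) := by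
    have h1 : τ ^ 2 / 4 + 1 ≤ Real.exp (τ ^ 2 / 4) := Real.add_one_le_exp _
    have h2 : (2 + (1 + τ) + 1 / (1 + τ)) ≤ 4 + τ ^ 2 := by
      have h3 : (2 + (1 + τ) + 1 / (1 + τ)) = 4 + τ ^ 2 / (1 + τ) := by
        field_simp
        ring
      rw [h3]
      have : τ ^ 2 / (1 + τ) ≤ τ ^ 2 := div_le_self (by positivity) (by linarith)
      linarith
    linarith
  have hpow : (2 + (1 + τ) + 1 / (1 + τ)) ^ d ≤ 4 ^ d * Real.exp (τ ^ 2 / 4 * d) := by
    calc (2 + (1 + τ) + 1 / (1 + τ)) ^ d ≤ (4 * Real.exp (τ ^ 2 / 4)) ^ d :=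
          pow_le_pow_left₀ (by positivity) hq d
      _ = 4 ^ d * Real.exp (τ ^ 2 / 4 * d) := by
        rw [mul_pow, ← Real.exp_nat_mul, mul_comm (d : ℝ)]
  have hlog : 8 / 11 * τ ≤ Real.log (1 + τ) := by
    have h1 : 1 - (1 + τ)⁻¹ ≤ Real.log (1 + τ) :=
      Real.one_sub_inv_le_log_of_pos (by linarith)
    have h2 : 8 / 11 * τ ≤ 1 - (1 + τ)⁻¹ := by
      have h3 : 1 - (1 + τ)⁻¹ = τ / (1 + τ) := by field_simp; ring
      rw [h3, le_div_iff₀ (by linarith)]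
      nlinarith
    linarith
  have hqs : Real.exp (8 / 11 * τ ^ 2 * d) ≤ (1 + τ) ^ s := by
    have h1 : (1 + τ) ^ s = Real.exp (s * Real.log (1 + τ)) := by
      rw [Real.exp_nat_mul, Real.exp_log (by linarith)]
    rw [h1]
    apply Real.exp_le_exp.mpr
    have h2 : 8 / 11 * τ ^ 2 * d = (τ * d) * (8 / 11 * τ) := by ring
    rw [h2]
    exact mul_le_mul hs1 hlog (by positivity) (Nat.cast_nonneg _)
  have h3 : (F.card : ℝ) ^ 2 ≤ (2 ^ d * Real.exp (-(2 / 9 * τ ^ 2 * d))) ^ 2 := by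
    have h4 : (F.card : ℝ) ^ 2 * Real.exp (8 / 11 * τ ^ 2 * d) ≤
        4 ^ d * Real.exp (τ ^ 2 / 4 * d) := by
      calc (F.card : ℝ) ^ 2 * Real.exp (8 / 11 * τ ^ 2 * d) ≤
            F.card * F.card * (1 + τ) ^ s := by
            rw [pow_two]
            exact mul_le_mul_of_nonneg_left hqs (by positivity)
        _ ≤ _ := hmain
        _ ≤ _ := hpow
    have h5 : (F.card : ℝ) ^ 2 ≤ 4 ^ d * Real.exp (τ ^ 2 / 4 * d) *
        Real.exp (-(8 / 11 * τ ^ 2 * d)) := by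
      rw [Real.exp_neg, ← div_eq_mul_inv, le_div_iff₀ (Real.exp_pos _)]
      exact h4
    refine h5.trans ?_
    rw [mul_assoc, ← Real.exp_add, mul_pow, ← pow_mul, mul_comm d 2, pow_mul, ← Real.exp_nat_mul]
    norm_num
    have : 0 ≤ τ ^ 2 * d := by positivity
    nlinarith
  exact abs_le_of_sq_le_sq' h3 (by positivity) |>.2

/-- the construction with all its parameters -/
theorem below_core {n m k a u : ℕ} {c ε η θ : ℝ} (hη : 0 < η) (hcη : c ≤ (1 - η) / 2) (hε : 0 < ε)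
    (hk : 1 ≤ k) (hu : 1 ≤ u) (hθ : 0 < θ) (hθ1 : θ ≤ 3 / 8) (ha1 : 8 * (u : ℝ) ^ 2 / η ^ 2 ≤ a)
    (hc0 : 0 ≤ c)
    (ha2 : (u : ℝ) ≤ 2 * a * θ) (ha3 : 2 * a * θ * Real.log (1 / ε) ≤ (u : ℝ) ^ 2)
    (hn : 2 * (2 * k : ℝ) ^ (2 * a) < η * n) (hm : 2 ^ k ≤ m) :
    (f n m c ε : ℝ) ≤ 2 * m * Real.exp (-(2 / 9 * θ ^ 2 * k)) := by
  classical
  obtain ⟨W, hW⟩ : ∃ W : ℕ, W = (2 * k) ^ (2 * a) := ⟨_, rfl⟩
  have hWc : Fintype.card (Fin (2 * a) → Fin k × Bool) = W := by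
    rw [Fintype.card_fun, Fintype.card_prod, Fintype.card_fin, Fintype.card_fin, Fintype.card_bool, hW,
      mul_comm k 2]
  have hWr : (W : ℝ) = (2 * k : ℝ) ^ (2 * a) := by rw [hW]; push_cast; ring
  have hW1 : 1 ≤ W := by rw [hW]; exact Nat.one_le_pow _ _ (by omega)
  have hW1' : (1 : ℝ) ≤ W := by exact_mod_cast hW1
  rw [← hWr] at hn
  have hη1 : η ≤ 1 := by linarith
  have hnn : (0 : ℝ) ≤ n := Nat.cast_nonneg _
  have hWn' : (W : ℝ) ≤ n := by nlinarith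
  have hWn : W ≤ n := by exact_mod_cast hWn'
  have hn1 : 1 ≤ n := hW1.trans hWn
  have hu' : (1 : ℝ) ≤ u := by exact_mod_cast hu
  have ha0 : 1 ≤ a := by
    rcases Nat.eq_zero_or_pos a with h | h
    · exfalso
      rw [h] at ha2
      simp at ha2
      linarith
    · exact h
  obtain ⟨q, hq⟩ : ∃ q, q = n / W := ⟨_, rfl⟩
  obtain ⟨r, hr⟩ : ∃ r, r = n % W := ⟨_, rfl⟩
  have hnq : W * q + r = n := by rw [hq, hr]; exact Nat.div_add_mod n W
  have hrW : r < W := by rw [hr]; exact Nat.mod_lt _ hW1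
  obtain ⟨e⟩ : Nonempty (((Fin (2 * a) → Fin k × Bool) × Fin q) ⊕ Fin r ≃ Fin n) := by
    apply Fintype.card_eq.mp
    rw [Fintype.card_sum, Fintype.card_prod, hWc, Fintype.card_fin, Fintype.card_fin, Fintype.card_fin, hnq]
  let bl : Finset (Fin (2 * a) → Fin k × Bool) → Finset (Fin n) := fun y =>
    ((y ×ˢ (univ : Finset (Fin q))).disjSum ∅).map e.toEmbedding
  have card_bl : ∀ y, (bl y).card = y.card * q := by
    intro y
    simp only [bl, card_map, card_disjSum, card_product, card_univ, Fintype.card_fin, card_empty, add_zero]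
  have bl_inter : ∀ y z, bl y ∩ bl z = bl (y ∩ z) := by
    intro y z
    simp only [bl]
    rw [← map_inter]
    congr 1
    ext b
    rcases b with b | b
    · simp
    · simp
  obtain ⟨K, hK⟩ : ∃ K, K = 2 ^ k := ⟨_, rfl⟩
  have hK0 : 0 < K := by rw [hK]; positivity
  obtain ⟨g⟩ : Nonempty (Fin K ≃ (Fin k → Bool)) := by
    apply Fintype.card_eq.mp
    rw [Fintype.card_fin, Fintype.card_fun, Fintype.card_bool, Fintype.card_fin, hK]
  let x : Fin m → (Fin k → Bool) := fun i => g ⟨(i : ℕ) % K, Nat.mod_lt _ hK0⟩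
  have hqn : (W : ℝ) * q + r = n := by exact_mod_cast hnq
  have hrd' : (r : ℝ) < W := by exact_mod_cast hrW
  have hq0 : (0 : ℝ) ≤ q := Nat.cast_nonneg _
  obtain ⟨I, hI1, hI2⟩ := f_mem (ε := ε) hn1 (by linarith : c < 1)
    (fun i => bl (thr (j := 2 * a) (a + u) (x i))) (by
    intro i
    rw [card_bl]
    have h1 := card_thr_ge hu hη ha1 (x i)
    rw [← hWr] at h1
    push_cast
    have h2 : ((1 / 2 - η / 4) * W) * q ≤ ((thr (j := 2 * a) (a + u) (x i)).card : ℝ) * q :=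
      mul_le_mul_of_nonneg_right h1 hq0
    -- `(1/2 - η/4) W q > c n`
    have h3 : (W : ℝ) * q = n - r := by linarith
    have h4 : (1 / 2 - η / 4) * ((W : ℝ) * q) = (1 / 2 - η / 4) * n - (1 / 2 - η / 4) * r := by
      rw [h3]; ring
    have h5 : (1 / 2 - η / 4) * r ≤ (1 / 2) * W := by
      have : (0 : ℝ) ≤ r := Nat.cast_nonneg _
      nlinarith
    nlinarith)
  rw [← hI1]
  have hF : ∀ y ∈ I.image x, ∀ z ∈ I.image x, θ * k ≤ (agree y z : ℝ) := by
    intro y hy z hz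
    rw [mem_image] at hy hz
    obtain ⟨i, hi, rfl⟩ := hy
    obtain ⟨j, hj, rfl⟩ := hz
    by_cases hij : x i = x j
    · rw [← hij]
      have : agree (x i) (x i) = k := by simp [agree]
      rw [this]
      have hk' : (0 : ℝ) ≤ k := Nat.cast_nonneg _
      nlinarith
    · have hne : i ≠ j := fun h => hij (by rw [h])
      have h1 := hI2 i hi j hj hne
      dsimp only at h1
      rw [bl_inter, card_bl] at h1
      push_cast at h1
      by_contra hcon
      push Not at hcon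
      have h2 := card_thr_inter_le (k := k) (a := a) (u := u) (E := Real.log (1 / ε)) hk hθ ha0 ha2 ha3
        (x i) (x j) hcon.le
      rw [one_div, Real.log_inv, neg_neg, Real.exp_log hε, ← hWr] at h2
      have h3 : ((thr (j := 2 * a) (a + u) (x i) ∩ thr (j := 2 * a) (a + u) (x j)).card : ℝ) * q ≤
          ε * W * q := mul_le_mul_of_nonneg_right h2 hq0
      have h4 : ε * W * q ≤ ε * n := by
        have h5 : (W : ℝ) * q ≤ n := by
          have : (0 : ℝ) ≤ r := Nat.cast_nonneg _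
          linarith
        calc ε * W * q = ε * (W * q) := by ring
          _ ≤ ε * n := mul_le_mul_of_nonneg_left h5 hε.le
      linarith
  have h1 := card_agree_le hθ.le hθ1 (I.image x) hF
  have h2 : I.card ≤ (m / K + 1) * (I.image x).card := by
    apply card_le_mul_card_image
    intro y hy
    rw [mem_image] at hy
    obtain ⟨i, hi, rfl⟩ := hy
    refine le_trans (card_le_card ?_) (card_fiber hK0 ((i : ℕ) % K))
    intro j hj
    simp only [mem_filter, mem_univ, true_and] at hj ⊢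
    have h3 := g.injective hj.2
    exact congrArg Fin.val h3
  have h3 : ((m / K + 1 : ℕ) : ℝ) ≤ 2 * m / 2 ^ k := by
    have h4 : ((m / K : ℕ) : ℝ) ≤ m / K := Nat.cast_div_le
    have h5 : (1 : ℝ) ≤ m / K := by
      rw [le_div_iff₀ (by exact_mod_cast hK0), one_mul]
      rw [hK]; exact_mod_cast hm
    have h6 : (K : ℝ) = 2 ^ k := by rw [hK]; push_cast; ring
    push_cast
    rw [← h6]
    have h7 : (2 : ℝ) * m / K = m / K + m / K := by ring
    rw [h7]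
    linarith
  calc (I.card : ℝ) ≤ ((m / K + 1 : ℕ) : ℝ) * ((I.image x).card : ℝ) := by exact_mod_cast h2
    _ ≤ (2 * m / 2 ^ k) * (2 ^ k * Real.exp (-(2 / 9 * θ ^ 2 * k))) :=
        mul_le_mul h3 h1 (Nat.cast_nonneg _) (by positivity)
    _ = 2 * m * Real.exp (-(2 / 9 * θ ^ 2 * k)) := by
      field_simp

set_option maxHeartbeats 1000000 in
/-- **Upper bound for `c < 1/2`.** For polynomially many sets and large `n` the exponent of `m` is at most
`1 - (1 - 2c)^4 / (1100 log(1/ε)^2)`. -/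
theorem below {c ε : ℝ} (b : ℕ) (hc0 : 0 < c) (hc : c < 1 / 2) (hε : 0 < ε) (hε1 : ε ≤ 1 / 2) :
    ∃ N : ℕ, ∀ n m : ℕ, N ≤ n → 1 ≤ m → m ≤ n ^ b →
      (f n m c ε : ℝ) ≤ 4 * (m : ℝ) ^ (1 - (1 - 2 * c) ^ 4 / (1100 * Real.log (1 / ε) ^ 2)) := by
  obtain ⟨η, hη⟩ : ∃ η : ℝ, η = 1 - 2 * c := ⟨_, rfl⟩
  obtain ⟨L, hL⟩ : ∃ L : ℝ, L = Real.log (1 / ε) := ⟨_, rfl⟩
  rw [← hη, ← hL]
  have hη0 : 0 < η := by rw [hη]; linarith
  have hη1 : η ≤ 1 := by rw [hη]; linarith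
  have hl2 : (0.6931471803 : ℝ) < Real.log 2 := Real.log_two_gt_d9
  have hl2' : Real.log 2 < 0.6931471808 := Real.log_two_lt_d9
  have hL0 : 0.69 < L := by
    have h1 : Real.log 2 ≤ L := by
      rw [hL]
      apply Real.log_le_log (by norm_num)
      rw [le_div_iff₀ hε]
      linarith
    linarith
  obtain ⟨θ, hθ⟩ : ∃ θ : ℝ, θ = η ^ 2 / (18 * L) := ⟨_, rfl⟩
  obtain ⟨u, hu⟩ : ∃ u : ℕ, u = ⌈2 * L⌉₊ := ⟨_, rfl⟩
  obtain ⟨a, ha⟩ : ∃ a : ℕ, a = ⌈8 * (u : ℝ) ^ 2 / η ^ 2⌉₊ := ⟨_, rfl⟩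
  have hu2 : 2 * L ≤ u := by rw [hu]; exact Nat.le_ceil _
  have hu1 : 1 ≤ u := by
    have : (0 : ℝ) < u := by linarith
    exact_mod_cast this
  have hu1' : (1 : ℝ) ≤ u := by exact_mod_cast hu1
  have ha1 : 8 * (u : ℝ) ^ 2 / η ^ 2 ≤ a := by rw [ha]; exact Nat.le_ceil _
  have hη2 : 0 < η ^ 2 := by positivity
  have hη21 : η ^ 2 ≤ 1 := by nlinarith
  have ha2 : (a : ℝ) ≤ 9 * (u : ℝ) ^ 2 / η ^ 2 := by
    have h1 : (a : ℝ) < 8 * (u : ℝ) ^ 2 / η ^ 2 + 1 := by rw [ha]; exact Nat.ceil_lt_add_one (by positivity)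
    have h2 : 1 ≤ (u : ℝ) ^ 2 / η ^ 2 := by
      rw [le_div_iff₀ hη2]
      nlinarith
    have h3 : 9 * (u : ℝ) ^ 2 / η ^ 2 = 8 * (u : ℝ) ^ 2 / η ^ 2 + (u : ℝ) ^ 2 / η ^ 2 := by ring
    linarith
  have hθ0 : 0 < θ := by rw [hθ]; positivity
  have hθ1 : θ ≤ 3 / 8 := by
    rw [hθ, div_le_iff₀ (by positivity)]
    nlinarith
  have hθL : θ * L = η ^ 2 / 18 := by rw [hθ]; field_simp
  have ha3 : (u : ℝ) ≤ 2 * a * θ := by
    have h1 : 8 * (u : ℝ) ^ 2 ≤ a * η ^ 2 := by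
      rwa [div_le_iff₀ hη2] at ha1
    have h2 : (u : ℝ) * L ≤ 2 * a * θ * L := by
      have h3 : 2 * a * θ * L = a * η ^ 2 / 9 := by
        calc 2 * a * θ * L = 2 * a * (θ * L) := by ring
          _ = _ := by rw [hθL]; ring
      rw [h3]
      nlinarith
    exact le_of_mul_le_mul_right h2 (by linarith)
  have ha4 : 2 * a * θ * L ≤ (u : ℝ) ^ 2 := by
    have h1 : (a : ℝ) * η ^ 2 ≤ 9 * (u : ℝ) ^ 2 := by
      rwa [le_div_iff₀ hη2] at ha2
    calc 2 * a * θ * L = 2 * a * (θ * L) := by ring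
      _ = (a * η ^ 2) / 9 := by rw [hθL]; ring
      _ ≤ _ := by linarith
  -- the threshold for `n`
  have hN : ∃ N : ℕ, ∀ n : ℕ, N ≤ n → 2 * (2 * (2 * (b : ℝ) * Real.log n)) ^ (2 * a) < η * n := by
    have h1 := Real.isLittleO_pow_log_id_atTop (n := 2 * a)
    have hδ : 0 < η / (2 * (4 * (b : ℝ) + 1) ^ (2 * a) + 1) := by positivity
    have h2 := (h1.def hδ).and (Filter.eventually_ge_atTop (1 : ℝ))
    have h3 := (tendsto_natCast_atTop_atTop (R := ℝ)).eventually h2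
    obtain ⟨N, hN⟩ := h3.exists_forall_of_atTop
    refine ⟨max N 1, fun n hn => ?_⟩
    obtain ⟨h4, h5⟩ := hN n (le_trans (le_max_left _ _) hn)
    have hn0 : (0 : ℝ) < n := by linarith
    have hlog : 0 ≤ Real.log n := Real.log_nonneg h5
    rw [Real.norm_of_nonneg (by positivity), id, Real.norm_of_nonneg hn0.le] at h4
    have h6 : (2 * (2 * (b : ℝ) * Real.log n)) ^ (2 * a) ≤
        (4 * (b : ℝ) + 1) ^ (2 * a) * Real.log n ^ (2 * a) := by
      rw [← mul_pow]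
      apply pow_le_pow_left₀ (by positivity)
      nlinarith
    have h7 : (4 * (b : ℝ) + 1) ^ (2 * a) * Real.log n ^ (2 * a) ≤
        (4 * (b : ℝ) + 1) ^ (2 * a) * (η / (2 * (4 * (b : ℝ) + 1) ^ (2 * a) + 1) * n) :=
      mul_le_mul_of_nonneg_left h4 (by positivity)
    obtain ⟨P, hP⟩ : ∃ P : ℝ, P = (4 * (b : ℝ) + 1) ^ (2 * a) := ⟨_, rfl⟩
    rw [← hP] at h6 h7
    have hP0 : 0 < P := by rw [hP]; positivity
    have h8 : 2 * (P * (η / (2 * P + 1) * n)) < η * n := by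
      have h9 : 2 * (P * (η / (2 * P + 1) * n)) = (2 * P / (2 * P + 1)) * (η * n) := by
        field_simp
      rw [h9]
      have h10 : 2 * P / (2 * P + 1) < 1 := by rw [div_lt_one (by positivity)]; linarith
      have h11 : 0 < η * n := by positivity
      nlinarith
    linarith
  obtain ⟨N, hN⟩ := hN
  refine ⟨max N 2, fun n m hn hm hmb => ?_⟩
  have hnN : N ≤ n := le_trans (le_max_left _ _) hn
  have hn2 : 2 ≤ n := le_trans (le_max_right _ _) hn
  have hm0 : (0 : ℝ) < m := by exact_mod_cast hm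
  rcases Nat.lt_or_ge m 2 with hm2 | hm2
  · have h1 : m = 1 := by omega
    subst h1
    have h2 : (f n 1 c ε : ℝ) ≤ (1 : ℕ) := by
      exact_mod_cast f_le (ε := ε) (m := 1) (by omega : 1 ≤ n) (by linarith : c < 1)
    rw [Nat.cast_one, Real.one_rpow]
    rw [Nat.cast_one] at h2
    linarith
  obtain ⟨k, hk⟩ : ∃ k, k = Nat.log 2 m := ⟨_, rfl⟩
  have hk1 : 1 ≤ k := by rw [hk]; exact Nat.log_pos (by norm_num) hm2
  have hkm : 2 ^ k ≤ m := by rw [hk]; exact Nat.pow_log_le_self 2 (by omega)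
  have hkm2 : m < 2 ^ (k + 1) := by rw [hk]; exact Nat.lt_pow_succ_log_self (by norm_num) m
  have hklog : (k : ℝ) ≤ 2 * b * Real.log n := by
    have h1 : ((2 ^ k : ℕ) : ℝ) ≤ ((n ^ b : ℕ) : ℝ) := by exact_mod_cast hkm.trans hmb
    have h2 : Real.log ((2 ^ k : ℕ) : ℝ) ≤ Real.log ((n ^ b : ℕ) : ℝ) :=
      Real.log_le_log (by positivity) h1
    push_cast at h2
    rw [Real.log_pow, Real.log_pow] at h2
    have h3 : 0 ≤ (k : ℝ) := Nat.cast_nonneg _
    nlinarith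
  have hcond : 2 * (2 * (k : ℝ)) ^ (2 * a) < η * n := by
    refine lt_of_le_of_lt ?_ (hN n hnN)
    apply mul_le_mul_of_nonneg_left _ (by norm_num)
    apply pow_le_pow_left₀ (by positivity)
    linarith
  have h1 := below_core (c := c) (ε := ε) (m := m) (u := u) hη0 (by rw [hη]; linarith) hε hk1 hu1 hθ0 hθ1 ha1
    hc0.le ha3 (by rw [← hL]; exact ha4) hcond hkm
  refine h1.trans ?_
  -- `exp(-(2/9) θ² k) ≤ 2 m^(-η⁴/(1100 L²))`
  have hlm : Real.log m / Real.log 2 - 1 ≤ k := by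
    have h2 : Real.log m ≤ Real.log ((2 ^ (k + 1) : ℕ) : ℝ) :=
      Real.log_le_log hm0 (by exact_mod_cast hkm2.le)
    push_cast at h2
    rw [Real.log_pow] at h2
    push_cast at h2
    rw [sub_le_iff_le_add, div_le_iff₀ (by linarith)]
    linarith
  have hlm0 : 0 ≤ Real.log m := Real.log_nonneg (by exact_mod_cast hm)
  have hθ2 : θ ^ 2 = η ^ 4 / (324 * L ^ 2) := by rw [hθ]; field_simp; norm_num
  have hθsq : 0 < θ ^ 2 := by positivity
  have h3 : -(2 / 9 * θ ^ 2 * (k : ℝ)) ≤ 2 / 9 * θ ^ 2 + Real.log m * -(η ^ 4 / (1100 * L ^ 2)) := by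
    have h4 : 2 / 9 * θ ^ 2 * (Real.log m / Real.log 2 - 1) ≤ 2 / 9 * θ ^ 2 * (k : ℝ) :=
      mul_le_mul_of_nonneg_left hlm (by positivity)
    have h5 : Real.log m * (η ^ 4 / (1100 * L ^ 2)) ≤ 2 / 9 * θ ^ 2 * (Real.log m / Real.log 2) := by
      have h6 : η ^ 4 / (1100 * L ^ 2) = θ ^ 2 * (324 / 1100) := by rw [hθ2]; field_simp
      have h7 : (1.44 : ℝ) ≤ 1 / Real.log 2 := by
        rw [le_div_iff₀ (by linarith)]
        linarith
      have h8 : Real.log m / Real.log 2 = Real.log m * (1 / Real.log 2) := by ring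
      rw [h6, h8]
      have h9 : 0 ≤ θ ^ 2 * Real.log m := by positivity
      have h12 : (324 / 1100 : ℝ) ≤ 2 / 9 * (1 / Real.log 2) := by linarith
      calc Real.log m * (θ ^ 2 * (324 / 1100)) = (θ ^ 2 * Real.log m) * (324 / 1100) := by ring
        _ ≤ (θ ^ 2 * Real.log m) * (2 / 9 * (1 / Real.log 2)) := mul_le_mul_of_nonneg_left h12 h9
        _ = _ := by ring
    have h13 : 2 / 9 * θ ^ 2 * (Real.log m / Real.log 2 - 1) =
        2 / 9 * θ ^ 2 * (Real.log m / Real.log 2) - 2 / 9 * θ ^ 2 := by ring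
    rw [h13] at h4
    have h14 : Real.log m * -(η ^ 4 / (1100 * L ^ 2)) = -(Real.log m * (η ^ 4 / (1100 * L ^ 2))) := by ring
    rw [h14]
    linarith
  have h10 : Real.exp (-(2 / 9 * θ ^ 2 * (k : ℝ))) ≤ 2 * (m : ℝ) ^ (-(η ^ 4 / (1100 * L ^ 2))) := by
    rw [Real.rpow_def_of_pos hm0]
    refine (Real.exp_le_exp.mpr h3).trans ?_
    rw [Real.exp_add]
    apply mul_le_mul_of_nonneg_right _ (Real.exp_pos _).le
    have h11 : Real.exp (2 / 9 * θ ^ 2) ≤ 1 / (1 - 2 / 9 * θ ^ 2) :=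
      Real.exp_bound_div_one_sub_of_interval (by positivity) (by nlinarith)
    refine h11.trans ?_
    rw [div_le_iff₀ (by nlinarith)]
    nlinarith
  rw [sub_eq_add_neg, Real.rpow_add hm0, Real.rpow_one]
  calc 2 * (m : ℝ) * Real.exp (-(2 / 9 * θ ^ 2 * k)) ≤
      2 * m * (2 * (m : ℝ) ^ (-(η ^ 4 / (1100 * L ^ 2)))) :=
        mul_le_mul_of_nonneg_left h10 (by positivity)
    _ = _ := by ring

end Pool.Agent.K1H44.DenseSys
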