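import Mathlib
import Pool.Agent.K1H44.DenseSys.Defs

set_option autoImplicit false

/-!
# The lower bound for `c = 1/2`: balls around a set and around its complement

If all sets have more than half of the elements, two sets that are both almost disjoint from a third one
are almost equal. So the sets close to a given set, the sets close to its complement, and so on, are
intersecting families, and one of the first `L` of them is not much smaller than the next one.
-/

namespace Pool.Agent.K1H44.DenseSys

open Finset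

section

variable {n m : ℕ} (B : Fin m → Finset (Fin n)) (ε : ℝ)

/-- the sets close to `B a` (for even `i`) or to its complement (for odd `i`) -/
noncomputable def X (a : Fin m) (i : ℕ) : Finset (Fin m) :=
  univ.filter fun j => (if Even i then ((B j \ B a).card : ℝ) else ((B j ∩ B a).card : ℝ)) ≤ i * ε * n

theorem mem_X_even {a j : Fin m} {i : ℕ} (hi : Even i) :
    j ∈ X B ε a i ↔ ((B j \ B a).card : ℝ) ≤ i * ε * n := by
  simp [X, hi]

theorem mem_X_odd {a j : Fin m} {i : ℕ} (hi : ¬ Even i) :
    j ∈ X B ε a i ↔ ((B j ∩ B a).card : ℝ) ≤ i * ε * n := by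
  simp [X, hi]

variable {B ε}

theorem nbr {h : ℕ} (hB : ∀ i, (B i).card = h) (hh : n ≤ 2 * h) {a j k : Fin m} {i : ℕ}
    (hj : j ∈ X B ε a i) (hk : ((B k ∩ B j).card : ℝ) ≤ ε * n) : k ∈ X B ε a (i + 1) := by
  classical
  by_cases hi : Even i
  · rw [mem_X_even B ε hi] at hj
    rw [mem_X_odd B ε (by rw [Nat.even_add_one]; exact not_not.mpr hi)]
    have h1 : (B k ∩ B a).card ≤ (B k ∩ B j).card + (B a \ B j).card := by
      refine (card_le_card (t := (B k ∩ B j) ∪ (B a \ B j)) ?_).trans (card_union_le _ _)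
      intro x hx
      rw [mem_inter] at hx
      rw [mem_union, mem_inter, mem_sdiff]
      by_cases h : x ∈ B j
      · exact Or.inl ⟨hx.1, h⟩
      · exact Or.inr ⟨hx.2, h⟩
    have h2 : (B a \ B j).card = (B j \ B a).card := by
      have e1 := card_sdiff_add_card_inter (B a) (B j)
      have e2 := card_sdiff_add_card_inter (B j) (B a)
      rw [inter_comm] at e2
      rw [hB] at e1 e2
      omega
    rw [h2] at h1
    have h3 : ((B k ∩ B a).card : ℝ) ≤ (B k ∩ B j).card + (B j \ B a).card := by exact_mod_cast h1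
    push_cast
    linarith
  · rw [mem_X_odd B ε hi] at hj
    rw [mem_X_even B ε (by rw [Nat.even_add_one]; exact hi)]
    have h1 : (B k \ B a).card + (B a ∪ B j).card ≤ (B k ∩ B j).card + n := by
      have h2 : (B k \ B a).card ≤ (B k ∩ B j).card + ((B a ∪ B j)ᶜ).card := by
        refine (card_le_card (t := (B k ∩ B j) ∪ (B a ∪ B j)ᶜ) ?_).trans (card_union_le _ _)
        intro x hx
        rw [mem_sdiff] at hx
        rw [mem_union, mem_inter, mem_compl, mem_union]
        by_cases h : x ∈ B j
        · exact Or.inl ⟨hx.1, h⟩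
        · exact Or.inr (not_or.mpr ⟨hx.2, h⟩)
      have h3 : (B a ∪ B j).card + ((B a ∪ B j)ᶜ).card = n := by
        rw [card_add_card_compl, Fintype.card_fin]
      omega
    have h2 : (B a ∪ B j).card + (B j ∩ B a).card = 2 * h := by
      have := card_union_add_card_inter (B a) (B j)
      rw [hB, hB, inter_comm] at this
      omega
    have h3 : (B k \ B a).card ≤ (B k ∩ B j).card + (B j ∩ B a).card := by omega
    have h4 : ((B k \ B a).card : ℝ) ≤ (B k ∩ B j).card + (B j ∩ B a).card := by exact_mod_cast h3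
    push_cast
    linarith

theorem X_inter {h : ℕ} (hn : 1 ≤ n) (hB : ∀ i, (B i).card = h) (hh : n < 2 * h) {a : Fin m} {i : ℕ}
    (hi : (4 * i + 2) * ε ≤ 1) : Intersecting ε B (X B ε a i) := by
  classical
  have hn0 : (0 : ℝ) < n := by exact_mod_cast hn
  have hh' : (n : ℝ) < 2 * h := by exact_mod_cast hh
  have key : (4 * i + 2) * ε * n ≤ n := by nlinarith
  intro j hj k hk _
  by_cases he : Even i
  · rw [mem_X_even B ε he] at hj hk
    have h1 : (B j).card ≤ (B j ∩ B k).card + (B j \ B a).card + (B a \ B k).card := by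
      refine (card_le_card (t := (B j ∩ B k) ∪ (B j \ B a) ∪ (B a \ B k)) ?_).trans
        ((card_union_le _ _).trans (Nat.add_le_add_right (card_union_le _ _) _))
      intro x hx
      rw [mem_union, mem_union, mem_inter, mem_sdiff, mem_sdiff]
      tauto
    have h2 : (B a \ B k).card = (B k \ B a).card := by
      have e1 := card_sdiff_add_card_inter (B a) (B k)
      have e2 := card_sdiff_add_card_inter (B k) (B a)
      rw [inter_comm] at e2
      rw [hB] at e1 e2
      omega
    rw [h2, hB] at h1
    have h3 : (h : ℝ) ≤ (B j ∩ B k).card + (B j \ B a).card + (B k \ B a).card := by exact_mod_cast h1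
    linarith
  · rw [mem_X_odd B ε he] at hj hk
    have h1 : (B j).card + (B k).card ≤ (B j ∩ B k).card + (n - h) + (B j ∩ B a).card +
        (B k ∩ B a).card := by
      have e1 := card_sdiff_add_card_inter (B j) (B a)
      have e2 := card_sdiff_add_card_inter (B k) (B a)
      have e3 := card_union_add_card_inter (B j \ B a) (B k \ B a)
      have e4 : ((B j \ B a) ∪ (B k \ B a)).card ≤ n - h := by
        have : ((B j \ B a) ∪ (B k \ B a)) ⊆ (B a)ᶜ := by
          intro x hx
          rw [mem_union, mem_sdiff, mem_sdiff] at hx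
          rw [mem_compl]
          tauto
        refine (card_le_card this).trans ?_
        rw [card_compl, Fintype.card_fin, hB]
      have e5 : ((B j \ B a) ∩ (B k \ B a)).card ≤ (B j ∩ B k).card := by
        apply card_le_card
        intro x hx
        rw [mem_inter, mem_sdiff, mem_sdiff] at hx
        rw [mem_inter]
        tauto
      omega
    rw [hB, hB] at h1
    have hhn : h ≤ n := by
      rw [← hB j]
      simpa using card_le_univ (B j)
    have h3 : 3 * (h : ℝ) ≤ (B j ∩ B k).card + n + (B j ∩ B a).card + (B k ∩ B a).card := by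
      have : 3 * h ≤ (B j ∩ B k).card + n + (B j ∩ B a).card + (B k ∩ B a).card := by omega
      exact_mod_cast this
    linarith

theorem greedy {h : ℕ} (hn : 1 ≤ n) (hε : 0 ≤ ε) (hB : ∀ i, (B i).card = h) (hh : n < 2 * h)
    {L : ℕ} (hL : 1 ≤ L) (hLε : (4 * (L : ℝ) - 2) * ε ≤ 1) {M q : ℝ} (hq : 1 ≤ q) (hqM : M ≤ q ^ L)
    (hM : ((univ.image B).card : ℝ) ≤ M) (N : ℕ) :
    ∀ J : Finset (Fin m), J.card = N → ∃ I : Finset (Fin m), I ⊆ J ∧ Intersecting ε B I ∧
      (J.card : ℝ) ≤ 2 * q * I.card := by
  classical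
  induction N using Nat.strong_induction_on with
  | _ N ih =>
  intro J hJ
  rcases J.eq_empty_or_nonempty with rfl | hne
  · exact ⟨∅, Subset.rfl, by intro i hi; simp at hi, by simp⟩
  -- the most frequent set
  obtain ⟨a, ha, hmax⟩ := exists_max_image J (fun a => (J.filter fun j => B j = B a).card) hne
  have hJle : (J.card : ℝ) ≤ M * ((J.filter fun j => B j = B a).card : ℝ) := by
    have h1 : J.card ≤ (J.filter fun j => B j = B a).card * (J.image B).card := by
      apply card_le_mul_card_image
      intro y hy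
      rw [mem_image] at hy
      obtain ⟨b, hb, rfl⟩ := hy
      exact hmax b hb
    have h2 : (J.image B).card ≤ (univ.image B).card := card_le_card (image_subset_image (subset_univ _))
    have h3 : ((J.image B).card : ℝ) ≤ M := le_trans (by exact_mod_cast h2) hM
    calc (J.card : ℝ) ≤ (J.filter fun j => B j = B a).card * (J.image B).card := by exact_mod_cast h1
      _ ≤ (J.filter fun j => B j = B a).card * M := by
        apply mul_le_mul_of_nonneg_left h3 (Nat.cast_nonneg _)
      _ = _ := mul_comm _ _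
  have h0 : ((J.filter fun j => B j = B a).card : ℝ) ≤ ((J ∩ X B ε a 0).card : ℝ) := by
    have : (J.filter fun j => B j = B a) ⊆ J ∩ X B ε a 0 := by
      intro j hj
      rw [mem_filter] at hj
      rw [mem_inter, mem_X_even B ε (by simp)]
      refine ⟨hj.1, ?_⟩
      rw [hj.2]
      simp
    exact_mod_cast card_le_card this
  have hpos : (0 : ℝ) < ((J.filter fun j => B j = B a).card : ℝ) := by
    have : 0 < (J.filter fun j => B j = B a).card := card_pos.mpr ⟨a, mem_filter.mpr ⟨ha, rfl⟩⟩
    exact_mod_cast this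
  -- a good index
  have hgood : ∃ i, i < L ∧ ((J ∩ X B ε a (i + 1)).card : ℝ) ≤ q * ((J ∩ X B ε a i).card : ℝ) := by
    by_contra hcon
    push Not at hcon
    have hgrow : ∀ i, i ≤ L → q ^ i * ((J.filter fun j => B j = B a).card : ℝ) ≤
        ((J ∩ X B ε a i).card : ℝ) := by
      intro i
      induction i with
      | zero => intro _; simpa using h0
      | succ i ih2 =>
        intro hi
        have h1 := ih2 (by omega)
        have h2 := hcon i (by omega)
        calc q ^ (i + 1) * ((J.filter fun j => B j = B a).card : ℝ) =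
            q * (q ^ i * ((J.filter fun j => B j = B a).card : ℝ)) := by ring
          _ ≤ q * ((J ∩ X B ε a i).card : ℝ) := mul_le_mul_of_nonneg_left h1 (by linarith)
          _ ≤ _ := h2.le
    obtain ⟨L', rfl⟩ : ∃ L', L = L' + 1 := ⟨L - 1, by omega⟩
    have h1 := hgrow L' (by omega)
    have h2 := hcon L' (by omega)
    have h3 : ((J ∩ X B ε a (L' + 1)).card : ℝ) ≤ J.card := by
      exact_mod_cast card_le_card inter_subset_left
    have h4 : q * (q ^ L' * ((J.filter fun j => B j = B a).card : ℝ)) < J.card :=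
      lt_of_le_of_lt (mul_le_mul_of_nonneg_left h1 (by linarith)) (lt_of_lt_of_le h2 h3)
    have h5 : q * (q ^ L' * ((J.filter fun j => B j = B a).card : ℝ)) =
        q ^ (L' + 1) * ((J.filter fun j => B j = B a).card : ℝ) := by ring
    rw [h5] at h4
    have h6 : M * ((J.filter fun j => B j = B a).card : ℝ) ≤
        q ^ (L' + 1) * ((J.filter fun j => B j = B a).card : ℝ) :=
      mul_le_mul_of_nonneg_right hqM hpos.le
    linarith
  obtain ⟨i, hiL, hi⟩ := hgood
  have hX : Intersecting ε B (X B ε a i) := by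
    apply X_inter hn hB hh
    have h1 : (i : ℝ) + 1 ≤ L := by exact_mod_cast hiL
    have h2 : (4 * (i : ℝ) + 2) * ε ≤ (4 * (L : ℝ) - 2) * ε :=
      mul_le_mul_of_nonneg_right (by linarith) hε
    linarith
  -- the rest
  obtain ⟨J', hJ'⟩ : ∃ J', J' = J \ (X B ε a i ∪ X B ε a (i + 1)) := ⟨_, rfl⟩
  have haX : a ∈ X B ε a i ∪ X B ε a (i + 1) := by
    rw [mem_union]
    rcases Nat.even_or_odd i with he | he
    · left
      rw [mem_X_even B ε he]
      have h0 : (B a \ B a).card = 0 := by simp
      rw [h0, Nat.cast_zero]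
      positivity
    · right
      rw [mem_X_even B ε he.add_one]
      have h0 : (B a \ B a).card = 0 := by simp
      rw [h0, Nat.cast_zero]
      positivity
  have hlt : J'.card < N := by
    rw [← hJ, hJ']
    apply card_lt_card
    refine ⟨sdiff_subset, fun h => ?_⟩
    exact (mem_sdiff.mp (h ha)).2 haX
  obtain ⟨I', hI1, hI2, hI3⟩ := ih _ hlt J' rfl
  refine ⟨(J ∩ X B ε a i) ∪ I', ?_, ?_, ?_⟩
  · apply union_subset inter_subset_left
    rw [hJ'] at hI1
    exact hI1.trans sdiff_subset
  · -- intersecting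
    have hcross : ∀ j ∈ X B ε a i, ∀ k ∈ J', ε * n < ((B k ∩ B j).card : ℝ) := by
      intro j hj k hk
      by_contra hcon
      push Not at hcon
      have := nbr hB hh.le hj hcon
      rw [hJ', mem_sdiff, mem_union] at hk
      exact hk.2 (Or.inr this)
    intro j hj k hk hjk
    rw [mem_union, mem_inter] at hj hk
    rcases hj with ⟨-, hj⟩ | hj <;> rcases hk with ⟨-, hk⟩ | hk
    · exact hX j hj k hk hjk
    · rw [inter_comm]
      exact hcross j hj k (hI1 hk)
    · exact hcross k hk j (hI1 hj)
    · exact hI2 j hj k hk hjk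
  · -- size
    have hdisj : Disjoint (J ∩ X B ε a i) I' := by
      rw [Finset.disjoint_left]
      intro x hx hx'
      have := hI1 hx'
      rw [hJ', mem_sdiff, mem_union] at this
      exact this.2 (Or.inl (mem_inter.mp hx).2)
    rw [card_union_of_disjoint hdisj]
    have h1 : J.card ≤ J'.card + (J ∩ X B ε a i).card + (J ∩ X B ε a (i + 1)).card := by
      have : J ⊆ J' ∪ (J ∩ X B ε a i) ∪ (J ∩ X B ε a (i + 1)) := by
        intro x hx
        rw [mem_union, mem_union, mem_inter, mem_inter, hJ', mem_sdiff, mem_union]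
        tauto
      exact (card_le_card this).trans ((card_union_le _ _).trans
        (Nat.add_le_add_right (card_union_le _ _) _))
    have h2 : (J.card : ℝ) ≤ J'.card + (J ∩ X B ε a i).card + (J ∩ X B ε a (i + 1)).card := by
      exact_mod_cast h1
    push_cast
    have h3 : (0 : ℝ) ≤ ((J ∩ X B ε a i).card : ℝ) := Nat.cast_nonneg _
    nlinarith

end

/-- **Lower bound for `c = 1/2`.** If `(4 L - 2) ε ≤ 1` then `f ≥ (1/2) m M^(-1/L)`, `M = min(m, 2^n)`. -/
theorem lower_half {n m : ℕ} {ε : ℝ} (hn : 1 ≤ n) (hε : 0 ≤ ε) {L : ℕ} (hL : 1 ≤ L)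
    (hLε : (4 * (L : ℝ) - 2) * ε ≤ 1) (M : ℝ) (hM1 : 1 ≤ M)
    (hM : ∀ B : Fin m → Finset (Fin n), ((univ.image B).card : ℝ) ≤ M) :
    1 / 2 * m * M ^ (-(1 / (L : ℝ))) ≤ (f n m (1 / 2) ε : ℝ) := by
  classical
  have hL0 : (0 : ℝ) < L := by exact_mod_cast hL
  have hM0 : 0 < M := by linarith
  obtain ⟨q, hq⟩ : ∃ q : ℝ, q = M ^ (1 / (L : ℝ)) := ⟨_, rfl⟩
  have hq1 : 1 ≤ q := by rw [hq]; exact Real.one_le_rpow hM1 (by positivity)
  have hqM : M ≤ q ^ L := by
    rw [hq, ← Real.rpow_natCast, ← Real.rpow_mul hM0.le, one_div, inv_mul_cancel₀ hL0.ne', Real.rpow_one]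
  have hqinv : M ^ (-(1 / (L : ℝ))) = q⁻¹ := by rw [hq, Real.rpow_neg hM0.le]
  rw [hqinv]
  have h8 : ⌈1 / 2 * (m : ℝ) * q⁻¹⌉₊ ≤ f n m (1 / 2) ε := by
    apply le_f hn (by norm_num)
    intro A hA
    -- shrink the sets
    obtain ⟨h, hh⟩ : ∃ h, h = n / 2 + 1 := ⟨_, rfl⟩
    have hlt : n < 2 * h := by omega
    have hcard : ∀ i, h ≤ (A i).card := by
      intro i
      have h1 := hA i
      have h2 : (n : ℝ) < 2 * (A i).card := by linarith
      have h3 : n < 2 * (A i).card := by exact_mod_cast h2
      omega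
    choose B hBA hB using fun i => exists_subset_card_eq (hcard i)
    obtain ⟨I, -, hI2, hI3⟩ := greedy hn hε hB hlt hL hLε hq1 hqM (hM B) _ univ rfl
    refine ⟨I, ?_, ?_⟩
    · apply Nat.ceil_le.mpr
      rw [card_univ, Fintype.card_fin] at hI3
      have hq0 : 0 < q := by linarith
      rw [← div_eq_mul_inv, div_le_iff₀ hq0]
      linarith
    · intro i hi j hj hij
      refine lt_of_lt_of_le (hI2 i hi j hj hij) ?_
      exact_mod_cast card_le_card (inter_subset_inter (hBA i) (hBA j))
  exact (Nat.le_ceil _).trans (by exact_mod_cast h8)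

end Pool.Agent.K1H44.DenseSys
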