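import Mathlib
import Pool.Agent.K1H44.DenseSys.Defs

set_option autoImplicit false

/-!
# The lower bound: dependent random choice
-/

namespace Pool.Agent.K1H44.DenseSys

open Finset

/-- Choosing `k` random points: there is an intersecting index set with at least
`m (c^k - M ε^k)` elements, `M` the number of different sets. -/
theorem exists_large {n m : ℕ} {c ε : ℝ} (hn : 1 ≤ n) (hε : 0 < ε) (hc : ε < c)
    (A : Fin m → Finset (Fin n)) (hA : ∀ i, c * n < ((A i).card : ℝ)) (k : ℕ) (M : ℝ)
    (hM : ((univ.image A).card : ℝ) ≤ M) :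
    ∃ I : Finset (Fin m), (m : ℝ) * (c ^ k - M * ε ^ k) ≤ I.card ∧ Intersecting ε A I := by
  classical
  have hn0 : (0 : ℝ) < n := by exact_mod_cast hn
  -- the index set for a tuple of points
  let bad : Fin m → Finset (Finset (Fin n)) := fun i =>
    (univ.image A).filter fun B => ((A i ∩ B).card : ℝ) ≤ ε * n
  let I : (Fin k → Fin n) → Finset (Fin m) := fun y =>
    univ.filter fun i => (∀ t, y t ∈ A i) ∧ ∀ B ∈ bad i, ¬ ∀ t, y t ∈ B
  have hI : ∀ y, Intersecting ε A (I y) := by
    intro y i hi j hj hij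
    by_contra hcon
    push Not at hcon
    simp only [I, mem_filter, mem_univ, true_and] at hi hj
    apply hi.2 (A j) _ hj.1
    simp only [bad, mem_filter, mem_image, mem_univ, true_and]
    exact ⟨⟨j, rfl⟩, hcon⟩
  -- counting tuples inside a set
  have hcount : ∀ B : Finset (Fin n),
      ((univ.filter fun y : Fin k → Fin n => ∀ t, y t ∈ B).card : ℝ) = (B.card : ℝ) ^ k := by
    intro B
    have : (univ.filter fun y : Fin k → Fin n => ∀ t, y t ∈ B) = Fintype.piFinset fun _ => B := by
      ext y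
      simp [Fintype.mem_piFinset]
    rw [this, Fintype.card_piFinset]
    simp
  have hsum : (m : ℝ) * (c ^ k - M * ε ^ k) * (n : ℝ) ^ k ≤
      ∑ y : Fin k → Fin n, ((I y).card : ℝ) := by
    have h1 : ∀ i : Fin m, (c ^ k - M * ε ^ k) * (n : ℝ) ^ k ≤
        ((univ.filter fun y : Fin k → Fin n => i ∈ I y).card : ℝ) := by
      intro i
      have h2 : (univ.filter fun y : Fin k → Fin n => ∀ t, y t ∈ A i) ⊆
          (univ.filter fun y : Fin k → Fin n => i ∈ I y) ∪
          (bad i).biUnion fun B => univ.filter fun y : Fin k → Fin n => ∀ t, y t ∈ A i ∩ B := by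
        intro y hy
        simp only [mem_filter, mem_univ, true_and] at hy
        rw [mem_union]
        by_cases h : ∀ B ∈ bad i, ¬ ∀ t, y t ∈ B
        · left
          simp only [I, mem_filter, mem_univ, true_and]
          exact ⟨hy, h⟩
        · right
          push Not at h
          obtain ⟨B, hB, hB2⟩ := h
          rw [mem_biUnion]
          refine ⟨B, hB, ?_⟩
          simp only [mem_filter, mem_univ, true_and, mem_inter]
          exact fun t => ⟨hy t, hB2 t⟩
      have h3 := card_le_card h2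
      have h4 : ((univ.filter fun y : Fin k → Fin n => ∀ t, y t ∈ A i).card : ℝ) ≤
          ((univ.filter fun y : Fin k → Fin n => i ∈ I y).card : ℝ) +
          ∑ B ∈ bad i,
            ((univ.filter fun y : Fin k → Fin n => ∀ t, y t ∈ A i ∩ B).card : ℝ) := by
        have h5 := h3.trans ((card_union_le _ _).trans
          (Nat.add_le_add_left card_biUnion_le _))
        exact_mod_cast h5
      have h6 : ∑ B ∈ bad i,
          ((univ.filter fun y : Fin k → Fin n => ∀ t, y t ∈ A i ∩ B).card : ℝ) ≤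
          M * (ε * n) ^ k := by
        calc ∑ B ∈ bad i,
              ((univ.filter fun y : Fin k → Fin n => ∀ t, y t ∈ A i ∩ B).card : ℝ)
            ≤ ∑ _B ∈ bad i, (ε * n) ^ k := by
              apply sum_le_sum
              intro B hB
              rw [hcount]
              apply pow_le_pow_left₀ (Nat.cast_nonneg _)
              simp only [bad, mem_filter] at hB
              exact hB.2
          _ = (bad i).card * (ε * n) ^ k := by rw [sum_const, nsmul_eq_mul]
          _ ≤ M * (ε * n) ^ k := by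
            apply mul_le_mul_of_nonneg_right _ (by positivity)
            refine le_trans ?_ hM
            exact_mod_cast card_le_card (filter_subset _ _)
      have h7 : (c * n) ^ k ≤
          ((univ.filter fun y : Fin k → Fin n => ∀ t, y t ∈ A i).card : ℝ) := by
        rw [hcount]
        exact pow_le_pow_left₀ (by nlinarith) (hA i).le k
      have h8 : (c ^ k - M * ε ^ k) * (n : ℝ) ^ k = (c * n) ^ k - M * (ε * n) ^ k := by
        rw [mul_pow, mul_pow]; ring
      rw [h8]
      linarith
    have h9 : ∑ y : Fin k → Fin n, ((I y).card : ℝ) =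
        ∑ i : Fin m, ((univ.filter fun y : Fin k → Fin n => i ∈ I y).card : ℝ) := by
      have : ∀ y, ((I y).card : ℝ) = ∑ i : Fin m, if i ∈ I y then (1 : ℝ) else 0 := by
        intro y
        rw [sum_boole]
        congr 2
        ext i
        simp
      simp_rw [this]
      rw [sum_comm]
      apply sum_congr rfl
      intro i _
      rw [sum_boole]
    rw [h9]
    calc (m : ℝ) * (c ^ k - M * ε ^ k) * (n : ℝ) ^ k =
        ∑ _i : Fin m, (c ^ k - M * ε ^ k) * (n : ℝ) ^ k := by
          rw [sum_const, nsmul_eq_mul, card_univ, Fintype.card_fin]; ring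
      _ ≤ _ := sum_le_sum fun i _ => h1 i
  -- averaging
  by_contra hcon
  push Not at hcon
  have h10 : ∀ y : Fin k → Fin n, ((I y).card : ℝ) < (m : ℝ) * (c ^ k - M * ε ^ k) := by
    intro y
    by_contra h
    push Not at h
    exact hcon (I y) h (hI y)
  have hne : (univ : Finset (Fin k → Fin n)).Nonempty := by
    have : Nonempty (Fin n) := ⟨⟨0, hn⟩⟩
    exact univ_nonempty
  have h11 : ∑ y : Fin k → Fin n, ((I y).card : ℝ) <
      ∑ _y : Fin k → Fin n, (m : ℝ) * (c ^ k - M * ε ^ k) :=
    sum_lt_sum_of_nonempty hne fun y _ => h10 y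
  rw [sum_const, nsmul_eq_mul, card_univ, Fintype.card_fun, Fintype.card_fin, Fintype.card_fin]
    at h11
  push_cast at h11
  linarith

/-- the number of different sets -/
theorem card_image_le' {n m : ℕ} (A : Fin m → Finset (Fin n)) :
    ((univ.image A).card : ℝ) ≤ min (m : ℝ) (2 ^ n) := by
  apply le_min
  · have := Finset.card_image_le (s := (univ : Finset (Fin m))) (f := A)
    rw [card_univ, Fintype.card_fin] at this
    exact_mod_cast this
  · have := card_le_univ (univ.image A)
    rw [Fintype.card_finset, Fintype.card_fin] at this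
    exact_mod_cast this

theorem lower {n m : ℕ} {c ε : ℝ} (hn : 1 ≤ n) (hm : 1 ≤ m) (hε : 0 < ε) (hc : ε < c)
    (hc1 : c < 1) :
    c / 2 * m * (2 * min (m : ℝ) (2 ^ n)) ^ (-(Real.log (1 / c) / Real.log (c / ε))) ≤
      (f n m c ε : ℝ) := by
  obtain ⟨M, hM⟩ : ∃ M : ℝ, M = min (m : ℝ) (2 ^ n) := ⟨_, rfl⟩
  rw [← hM]
  have hM1 : 1 ≤ M := by
    rw [hM]
    apply le_min
    · exact_mod_cast hm
    · exact one_le_pow₀ (by norm_num)
  have hc0 : 0 < c := hε.trans hc
  have hr : 1 < c / ε := by rwa [lt_div_iff₀ hε, one_mul]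
  have hlr : 0 < Real.log (c / ε) := Real.log_pos hr
  obtain ⟨k, hk⟩ : ∃ k : ℕ, k = ⌈Real.log (2 * M) / Real.log (c / ε)⌉₊ := ⟨_, rfl⟩
  have hl0 : 0 ≤ Real.log (2 * M) / Real.log (c / ε) :=
    div_nonneg (Real.log_nonneg (by linarith)) hlr.le
  have hk1 : Real.log (2 * M) / Real.log (c / ε) ≤ k := by rw [hk]; exact Nat.le_ceil _
  have hk2 : (k : ℝ) ≤ Real.log (2 * M) / Real.log (c / ε) + 1 := by
    rw [hk]; exact (Nat.ceil_lt_add_one hl0).le
  have hlc : Real.log c ≤ 0 := Real.log_nonpos hc0.le hc1.le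
  -- `2 M ε^k ≤ c^k`
  have h1 : 2 * M * ε ^ k ≤ c ^ k := by
    have h2 : 2 * M ≤ (c / ε) ^ k := by
      rw [div_le_iff₀ hlr, ← Real.log_pow] at hk1
      exact (Real.log_le_log_iff (by linarith) (by positivity)).mp hk1
    rw [div_pow, le_div_iff₀ (by positivity)] at h2
    exact h2
  -- `c^k ≥ c (2M)^(-δ)`
  have h3 : c * (2 * M) ^ (-(Real.log (1 / c) / Real.log (c / ε))) ≤ c ^ k := by
    have h4 : (2 * M) ^ (-(Real.log (1 / c) / Real.log (c / ε))) =
        Real.exp (Real.log c * (Real.log (2 * M) / Real.log (c / ε))) := by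
      rw [Real.rpow_def_of_pos (by linarith), one_div, Real.log_inv]
      congr 1
      ring
    have h5 : c * Real.exp (Real.log c * (Real.log (2 * M) / Real.log (c / ε))) =
        Real.exp (Real.log c * (Real.log (2 * M) / Real.log (c / ε) + 1)) := by
      rw [mul_add, Real.exp_add, mul_one, Real.exp_log hc0, mul_comm]
    rw [h4, h5]
    have h6 : c ^ k = Real.exp (Real.log c * k) := by
      rw [mul_comm, Real.exp_nat_mul, Real.exp_log hc0]
    rw [h6]
    apply Real.exp_le_exp.mpr
    exact mul_le_mul_of_nonpos_left hk2 hlc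
  have hm0 : (0 : ℝ) ≤ m := Nat.cast_nonneg _
  have hx : c / 2 * m * (2 * M) ^ (-(Real.log (1 / c) / Real.log (c / ε))) ≤
      m * (c ^ k - M * ε ^ k) := by
    have h7 : (1 / 2 : ℝ) * c ^ k ≤ c ^ k - M * ε ^ k := by linarith
    calc c / 2 * m * (2 * M) ^ (-(Real.log (1 / c) / Real.log (c / ε))) =
        m * (1 / 2 * (c * (2 * M) ^ (-(Real.log (1 / c) / Real.log (c / ε))))) := by ring
      _ ≤ m * (1 / 2 * c ^ k) := by gcongr
      _ ≤ _ := mul_le_mul_of_nonneg_left h7 hm0
  have h8 : ⌈(m : ℝ) * (c ^ k - M * ε ^ k)⌉₊ ≤ f n m c ε := by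
    apply le_f hn hc1
    intro A hA
    obtain ⟨I, hI1, hI2⟩ := exists_large hn hε hc A hA k M (by
      rw [hM]; exact card_image_le' A)
    exact ⟨I, Nat.ceil_le.mpr hI1, hI2⟩
  calc _ ≤ _ := hx
    _ ≤ (⌈(m : ℝ) * (c ^ k - M * ε ^ k)⌉₊ : ℝ) := Nat.le_ceil _
    _ ≤ _ := by exact_mod_cast h8

end Pool.Agent.K1H44.DenseSys
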